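import Mathlib

/-!
# The orthogonal lattice of a set of short integer vectors

Let `R` be a set of integer vectors with coordinates indexed by a finite type `M`, each of `l^1`-norm
at most `h`. Then there are integer vectors `u j`, `j` in `M`, orthogonal to `R`, with coordinates
of absolute value at most `h ^ |M|` (`h ≥ 1`), such that every integer vector orthogonal to `R` is a
rational combination of the `u j`.
-/

set_option autoImplicit false

namespace Q33.SU

open Finset Matrix

variable {M : Type*} [Fintype M] [DecidableEq M]

/-- the absolute value of a determinant is at most the product of the `l^1`-norms of the rows -/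
lemma abs_det_le_prod {k : ℕ} (A : Matrix (Fin k) (Fin k) ℤ) :
    |A.det| ≤ ∏ i, ∑ s, |A i s| := by
  rw [← Matrix.det_transpose, Matrix.det_apply']
  calc |∑ σ : Equiv.Perm (Fin k), ((Equiv.Perm.sign σ : ℤˣ) : ℤ) * ∏ i, Aᵀ (σ i) i|
      ≤ ∑ σ : Equiv.Perm (Fin k), |((Equiv.Perm.sign σ : ℤˣ) : ℤ) * ∏ i, Aᵀ (σ i) i| :=
        Finset.abs_sum_le_sum_abs _ _
    _ = ∑ σ : Equiv.Perm (Fin k), ∏ i, |A i (σ i)| := by
        apply Finset.sum_congr rfl
        intro σ _
        rw [abs_mul, Finset.abs_prod]
        have h1 : |((Equiv.Perm.sign σ : ℤˣ) : ℤ)| = 1 := by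
          rcases Int.units_eq_one_or (Equiv.Perm.sign σ) with h | h <;> rw [h] <;> simp
        rw [h1, one_mul]
        rfl
    _ = ∑ p ∈ (Finset.univ : Finset (Equiv.Perm (Fin k))).image
          (fun (σ : Equiv.Perm (Fin k)) (i : Fin k) => σ i), ∏ i, |A i (p i)| := by
        rw [Finset.sum_image]
        intro σ _ τ _ h
        exact Equiv.ext fun i => congrFun h i
    _ ≤ ∑ p : Fin k → Fin k, ∏ i, |A i (p i)| := by
        apply Finset.sum_le_sum_of_subset_of_nonneg (Finset.subset_univ _)
        intro p _ _
        exact Finset.prod_nonneg fun i _ => abs_nonneg _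
    _ = ∏ i, ∑ s, |A i s| := by
        rw [Finset.prod_univ_sum, Fintype.piFinset_univ]

/-- a minor of vectors of `l^1`-norm at most `h` is at most `h ^ k` -/
lemma abs_minor_le {k : ℕ} {h : ℤ} (f : Fin k → M → ℤ) (hf : ∀ i, ∑ m, |f i m| ≤ h)
    (g : Fin k → M) : |(Matrix.of fun i s => f i (g s)).det| ≤ h ^ k := by
  by_cases hg : Function.Injective g
  · refine (abs_det_le_prod _).trans ?_
    calc ∏ i, ∑ s, |(Matrix.of fun i s => f i (g s)) i s| ≤ ∏ _i : Fin k, h := by
          apply Finset.prod_le_prod
          · intro i _
            exact Finset.sum_nonneg fun s _ => abs_nonneg _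
          · intro i _
            refine le_trans ?_ (hf i)
            have h1 : ∑ s, |(Matrix.of fun i s => f i (g s)) i s| =
                ∑ m ∈ Finset.univ.image g, |f i m| := by
              rw [Finset.sum_image fun a _ b _ hab => hg hab]
              rfl
            rw [h1]
            exact Finset.sum_le_sum_of_subset_of_nonneg (Finset.subset_univ _)
              fun m _ _ => abs_nonneg _
      _ = h ^ k := by simp
  · rw [Function.Injective] at hg
    push Not at hg
    obtain ⟨a, b, hab, hne⟩ := hg
    rw [Matrix.det_zero_of_column_eq hne fun i => by simp [hab], abs_zero]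
    rcases k with _ | k
    · simp
    · have : 0 ≤ h := le_trans (Finset.sum_nonneg fun m _ => abs_nonneg _) (hf 0)
      exact pow_nonneg this _

/-- **The orthogonal lattice of short vectors is spanned by short vectors.** -/
theorem exists_orthogonal (R : Set (M → ℤ)) (h : ℤ) (h1 : 1 ≤ h)
    (hR : ∀ w ∈ R, ∑ m, |w m| ≤ h) :
    ∃ (Δ : ℤ) (u : M → M → ℤ), Δ ≠ 0 ∧ (∀ j m, |u j m| ≤ h ^ Fintype.card M) ∧
      (∀ w ∈ R, ∀ j, ∑ m, w m * u j m = 0) ∧
      ∀ z : M → ℤ, (∀ w ∈ R, ∑ m, w m * z m = 0) → ∀ m, Δ * z m = ∑ j, z j * u j m := by
  classical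
  -- the nonzero minors
  let S : ℕ → Prop := fun k => ∃ (f : Fin k → M → ℤ) (g : Fin k → M), (∀ i, f i ∈ R) ∧
    (Matrix.of fun i s => f i (g s)).det ≠ 0
  have hS0 : S 0 := ⟨fun i => i.elim0, fun i => i.elim0, fun i => i.elim0, by simp⟩
  have hSle : ∀ k, S k → k ≤ Fintype.card M := by
    rintro k ⟨f, g, -, hdet⟩
    have hg : Function.Injective g := by
      intro a b hab
      by_contra hne
      exact hdet (Matrix.det_zero_of_column_eq hne fun i => by simp [hab])
    simpa using Fintype.card_le_of_injective g hg
  obtain ⟨k, hk, hmax⟩ : ∃ k, S k ∧ ¬ S (k + 1) := by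
    by_contra hcon
    push Not at hcon
    have hall : ∀ k, S k := fun k => Nat.rec hS0 (fun k ih => hcon k ih) k
    have := hSle _ (hall (Fintype.card M + 1))
    omega
  have hkM := hSle k hk
  obtain ⟨f, g, hfR, hdet⟩ := hk
  set A : Matrix (Fin k) (Fin k) ℤ := Matrix.of fun i s => f i (g s) with hA
  have hAapp : ∀ i s, A i s = f i (g s) := fun i s => rfl
  have hginj : Function.Injective g := by
    intro a b hab
    by_contra hne
    exact hdet (Matrix.det_zero_of_column_eq hne fun i => by rw [hAapp, hAapp, hab])
  have hpow : h ^ k ≤ h ^ Fintype.card M := pow_le_pow_right₀ h1 hkM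
  have hfle : ∀ i, ∑ m, |f i m| ≤ h := fun i => hR _ (hfR i)
  -- the Cramer solutions
  have hcr : ∀ j s, |A.cramer (fun i => f i j) s| ≤ h ^ Fintype.card M := by
    intro j s
    refine le_trans ?_ hpow
    rw [Matrix.cramer_apply]
    have : A.updateCol s (fun i => f i j) = Matrix.of fun i s' => f i (Function.update g s j s') := by
      ext i s'
      rw [Matrix.of_apply]
      by_cases hs : s' = s
      · subst hs
        simp
      · rw [Matrix.updateCol_ne hs, Function.update_of_ne hs, hAapp]
    rw [this]
    exact abs_minor_le f hfle _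
  have hΔ : |A.det| ≤ h ^ Fintype.card M := (abs_minor_le f hfle g).trans hpow
  have hBnn : 0 ≤ h ^ Fintype.card M := pow_nonneg (by linarith) _
  refine ⟨A.det, fun j m => (if m = j then A.det else 0) -
    ∑ s, if g s = m then A.cramer (fun i => f i j) s else 0, hdet, ?_, ?_, ?_⟩
  · intro j m
    -- if `j` is one of the columns then the vector is zero
    by_cases hj : ∃ s, g s = j
    · obtain ⟨s, rfl⟩ := hj
      have h2 : A.cramer (fun i => f i (g s)) = Pi.single s A.det := by
        have := Matrix.cramer_transpose_row_self Aᵀ s
        rw [Matrix.transpose_transpose, Matrix.det_transpose] at this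
        exact this
      simp only
      rw [h2]
      have h3 : (∑ s', if g s' = m then (Pi.single s A.det : Fin k → ℤ) s' else 0) =
          if m = g s then A.det else 0 := by
        rw [Finset.sum_eq_single s]
        · simp [eq_comm]
        · intro b _ hb
          rw [Pi.single_eq_of_ne hb]
          simp
        · intro hs
          exact absurd (Finset.mem_univ _) hs
      rw [h3, sub_self, abs_zero]
      exact hBnn
    · by_cases hm : ∃ s, g s = m
      · obtain ⟨s, rfl⟩ := hm
        have h4 : g s ≠ j := fun h => hj ⟨s, h⟩
        have h3 : (∑ s', if g s' = g s then A.cramer (fun i => f i j) s' else 0) =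
            A.cramer (fun i => f i j) s := by
          rw [Finset.sum_eq_single s]
          · simp
          · intro b _ hb
            rw [if_neg fun h => hb (hginj h)]
          · intro hs
            exact absurd (Finset.mem_univ _) hs
        simp only
        rw [h3, if_neg h4, zero_sub, abs_neg]
        exact hcr _ _
      · have h3 : (∑ s', if g s' = m then A.cramer (fun i => f i j) s' else 0) = 0 := by
          apply Finset.sum_eq_zero
          intro s _
          rw [if_neg fun h => hm ⟨s, h⟩]
        simp only
        rw [h3, sub_zero]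
        split_ifs
        · exact hΔ
        · simpa using hBnn
  · -- orthogonality
    intro w hw j
    have h2 : ∑ m, w m * ((if m = j then A.det else 0) -
        ∑ s, if g s = m then A.cramer (fun i => f i j) s else 0) =
        A.det * w j - ∑ s, w (g s) * A.cramer (fun i => f i j) s := by
      simp only [mul_sub, Finset.sum_sub_distrib, Finset.mul_sum, mul_ite, mul_zero]
      rw [Finset.sum_comm]
      simp [mul_comm]
    rw [h2]
    -- the bordered matrix
    set B : Matrix (Fin k ⊕ Unit) (Fin k ⊕ Unit) ℤ := Matrix.fromBlocks A
      (Matrix.of fun i (_ : Unit) => f i j) (Matrix.of fun (_ : Unit) s => w (g s))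
      (Matrix.of fun _ _ => w j) with hB
    have hB0 : B.det = 0 := by
      by_contra hne
      apply hmax
      let e : Fin (k + 1) ≃ Fin k ⊕ Unit := finSumFinEquiv.symm.trans
        (Equiv.sumCongr (Equiv.refl _) (Equiv.ofUnique (Fin 1) Unit))
      refine ⟨fun i => Sum.elim f (fun _ => w) (e i), fun s => Sum.elim g (fun _ => j) (e s), ?_, ?_⟩
      · intro i
        change Sum.elim f (fun _ => w) (e i) ∈ R
        rcases e i with x | x
        · exact hfR x
        · exact hw
      · have h5 : (Matrix.of fun i s : Fin (k + 1) => Sum.elim f (fun _ => w) (e i)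
            (Sum.elim g (fun _ => j) (e s))) = B.submatrix e e := by
          ext i s
          rw [Matrix.of_apply, Matrix.submatrix_apply]
          rcases e i with x | x <;> rcases e s with y | y <;> rfl
        rw [h5, Matrix.det_submatrix_equiv_self]
        exact hne
    have hmul : B * Matrix.fromBlocks 1 (Matrix.of fun s (_ : Unit) =>
        - A.cramer (fun i => f i j) s) 0 (Matrix.of fun _ _ => A.det) =
        Matrix.fromBlocks A 0 (Matrix.of fun (_ : Unit) s => w (g s))
          (Matrix.of fun _ _ => A.det * w j - ∑ s, w (g s) * A.cramer (fun i => f i j) s) := by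
      rw [hB, Matrix.fromBlocks_multiply]
      congr 1
      · rw [Matrix.mul_one, Matrix.mul_zero, add_zero]
      · ext i x
        simp only [Matrix.add_apply, Matrix.mul_apply, Matrix.of_apply, Matrix.zero_apply,
          Finset.univ_unique, Finset.sum_singleton, mul_neg, Finset.sum_neg_distrib]
        have h6 := congrFun (Matrix.mulVec_cramer A (fun i => f i j)) i
        rw [Matrix.mulVec, dotProduct, Pi.smul_apply, smul_eq_mul] at h6
        rw [h6]
        ring
      · rw [Matrix.mul_one, Matrix.mul_zero, add_zero]
      · ext x y
        simp only [Matrix.add_apply, Matrix.mul_apply, Matrix.of_apply,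
          Finset.univ_unique, Finset.sum_singleton, mul_neg, Finset.sum_neg_distrib]
        ring
    have h7 := congrArg Matrix.det hmul
    rw [Matrix.det_mul, hB0, zero_mul, Matrix.det_fromBlocks_zero₁₂] at h7
    have h8 := (mul_eq_zero.mp h7.symm).resolve_left hdet
    simpa using h8
  · -- spanning
    intro z hz m
    have h2 : ∑ j, z j * ((if m = j then A.det else 0) -
        ∑ s, if g s = m then A.cramer (fun i => f i j) s else 0) =
        A.det * z m - ∑ s, (if g s = m then A.cramer (∑ j, z j • fun i => f i j) s else 0) := by
      simp only [mul_sub, Finset.sum_sub_distrib, mul_ite, mul_zero]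
      congr 1
      · simp [mul_comm]
      · simp only [Finset.mul_sum, mul_ite, mul_zero]
        rw [Finset.sum_comm]
        apply Finset.sum_congr rfl
        intro s _
        split_ifs
        · rw [map_sum, Finset.sum_apply]
          apply Finset.sum_congr rfl
          intro j _
          rw [map_smul]
          rfl
        · simp
    simp only
    rw [h2]
    have h3 : (∑ j, z j • fun i => f i j) = (0 : Fin k → ℤ) := by
      ext i
      rw [Finset.sum_apply]
      simp only [Pi.smul_apply, smul_eq_mul, Pi.zero_apply]
      rw [← hz _ (hfR i)]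
      exact Finset.sum_congr rfl fun j _ => mul_comm _ _
    rw [h3, map_zero]
    simp

end Q33.SU
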