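import Mathlib
import Pool.Agent.Q33.SU.Lattice

/-!
# Polynomial parametrisations with few terms: the exponents can be bounded

`P j = ∑ i, c i j t ^ (e i j)`, for `j` in a finite type `J` and `i` in a finite type `ι`, are
polynomials with at most `|ι|` terms.
-/

set_option autoImplicit false

namespace Q33.SU

open MvPolynomial Finset

/-- The polynomials `P j = ∑ i, c i j t ^ (e i j)` in the variables `t`, with given coefficients
`c i j` and exponent vectors `e i j`. -/
noncomputable def sparse {ι J τ L : Type*} [Fintype ι] [CommRing L] (c : ι → J → L)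
    (e : ι → J → τ →₀ ℕ) (j : J) : MvPolynomial τ L := ∑ i, monomial (e i j) (c i j)

/-- A form `F` over `K` is in the ideal `I` if and only if `F (P) = 0`. If `I` is the ideal of the
projective variety `X` this says that `P` is a polynomial parametrisation of `X` with dense
image. -/
def DenseIn {J τ K L : Type*} [CommRing K] [CommRing L] [Algebra K L]
    (I : Ideal (MvPolynomial J K)) (P : J → MvPolynomial τ L) : Prop :=
  ∀ (D : ℕ) (F : MvPolynomial J K), F.IsHomogeneous D → (F ∈ I ↔ aeval P F = 0)

section maps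

variable {ι J τ τ' K L : Type*} [Fintype ι] [Fintype J] [CommRing K] [CommRing L] [Algebra K L]

/-- the universal polynomials -/
noncomputable def uni (c : ι → J → L) (j : J) : MvPolynomial (ι × J) L :=
  ∑ i, monomial (Finsupp.single (i, j) 1) (c i j)

/-- the exponent of the image of a monomial -/
noncomputable def ex (E : ι × J → τ →₀ ℕ) (a : ι × J →₀ ℕ) : τ →₀ ℕ := ∑ m, a m • E m

/-- the substitution of monomials with exponents `E` -/
noncomputable def subst (E : ι × J → τ →₀ ℕ) : MvPolynomial (ι × J) L →ₐ[L] MvPolynomial τ L :=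
  aeval fun m => monomial (E m) (1 : L)

lemma subst_monomial (E : ι × J → τ →₀ ℕ) (a : ι × J →₀ ℕ) (x : L) :
    subst E (monomial a x) = monomial (ex E a) x := by
  unfold subst ex
  rw [aeval_monomial, Finsupp.prod_fintype _ _ fun m => pow_zero _]
  simp only [monomial_pow, one_pow]
  rw [← monomial_sum_one, algebraMap_eq, C_mul_monomial, mul_one]

lemma subst_apply (E : ι × J → τ →₀ ℕ) (Q : MvPolynomial (ι × J) L) :
    subst E Q = ∑ a ∈ Q.support, monomial (ex E a) (coeff a Q) := by
  conv_lhs => rw [Q.as_sum]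
  rw [map_sum]
  exact Finset.sum_congr rfl fun a _ => subst_monomial E a _

lemma subst_uni (c : ι → J → L) (e : ι → J → τ →₀ ℕ) (j : J) :
    subst (fun m => e m.1 m.2) (uni c j) = sparse c e j := by
  classical
  unfold uni sparse
  rw [map_sum]
  refine Finset.sum_congr rfl fun i _ => ?_
  rw [subst_monomial]
  congr 1
  unfold ex
  rw [Finset.sum_eq_single (i, j)]
  · simp
  · intro b _ hb
    rw [Finsupp.single_eq_of_ne hb, zero_smul]
  · intro h
    exact absurd (Finset.mem_univ _) h

lemma aeval_sparse (c : ι → J → L) (e : ι → J → τ →₀ ℕ) (F : MvPolynomial J K) :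
    aeval (sparse c e) F = subst (fun m => e m.1 m.2) (aeval (uni c) F) := by
  have h : (aeval (sparse c e) : MvPolynomial J K →ₐ[K] MvPolynomial τ L) =
      ((subst (fun m => e m.1 m.2)).restrictScalars K).comp (aeval (uni c)) := by
    apply MvPolynomial.algHom_ext
    intro j
    rw [aeval_X, AlgHom.comp_apply, aeval_X, AlgHom.restrictScalars_apply, subst_uni]
  rw [h]
  rfl

omit [Fintype J] in
lemma uni_homogeneous (c : ι → J → L) (j : J) : (uni c j).IsHomogeneous 1 := by
  unfold uni
  apply IsHomogeneous.sum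
  intro i _
  apply isHomogeneous_monomial
  simp

/-- the exponents of the expansion of a form of degree `D` have degree `D` -/
lemma degree_of_mem (c : ι → J → L) {D : ℕ} {F : MvPolynomial J K} (hF : F.IsHomogeneous D)
    {a : ι × J →₀ ℕ} (ha : a ∈ (aeval (uni c) F).support) : ∑ m, a m = D := by
  have h := hF.aeval (S := L) (uni c) (uni_homogeneous c)
  rw [one_mul] at h
  have h1 := h (mem_support_iff.mp ha)
  rw [Finsupp.weight_apply, Finsupp.sum_fintype _ _ (by intro m; simp)] at h1
  simpa using h1

/-- **Transfer of identities.** -/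
lemma transfer (E : ι × J → τ →₀ ℕ) (E' : ι × J → τ' →₀ ℕ) (Q : MvPolynomial (ι × J) L)
    (h : ∀ a ∈ Q.support, ∀ b ∈ Q.support, ex E a = ex E b → ex E' a = ex E' b)
    (h0 : subst E Q = 0) : subst E' Q = 0 := by
  classical
  have hcoef : ∀ v, ∑ a ∈ Q.support.filter (fun a => ex E a = v), coeff a Q = 0 := by
    intro v
    have h1 := congrArg (coeff v) h0
    rw [subst_apply, coeff_sum, coeff_zero] at h1
    refine Eq.trans ?_ h1
    rw [Finset.sum_filter]
    refine Finset.sum_congr rfl fun a _ => ?_
    rw [coeff_monomial]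
  rw [subst_apply]
  ext v'
  rw [coeff_sum, coeff_zero]
  have h2 : ∑ a ∈ Q.support, coeff v' (monomial (ex E' a) (coeff a Q)) =
      ∑ a ∈ Q.support.filter (fun a => ex E' a = v'), coeff a Q := by
    rw [Finset.sum_filter]
    refine Finset.sum_congr rfl fun a _ => ?_
    rw [coeff_monomial]
  rw [h2, ← Finset.sum_fiberwise_of_maps_to (g := ex E)
    (t := (Q.support.filter (fun a => ex E' a = v')).image (ex E))
    fun a ha => Finset.mem_image_of_mem _ ha]
  apply Finset.sum_eq_zero
  intro v hv
  obtain ⟨a₀, ha₀, rfl⟩ := Finset.mem_image.mp hv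
  rw [← hcoef (ex E a₀)]
  congr 1
  ext a
  rw [Finset.mem_filter, Finset.mem_filter, Finset.mem_filter]
  rw [Finset.mem_filter] at ha₀
  constructor
  · rintro ⟨⟨h3, -⟩, h4⟩
    exact ⟨h3, h4⟩
  · rintro ⟨h3, h4⟩
    exact ⟨⟨h3, (h a h3 a₀ ha₀.1 h4).trans ha₀.2⟩, h4⟩

end maps

end Q33.SU
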