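import Mathlib
import Pool.Agent.Q33.SU.Sparse

/-!
# Polynomial parametrisations with few terms: the exponents can be bounded (main theorem)
-/

set_option autoImplicit false

namespace Q33.SU

open MvPolynomial Finset

universe u v

section bound

variable {ι J τ : Type*} [Fintype ι] [Fintype J]

lemma ex_apply (E : ι × J → τ →₀ ℕ) (a : ι × J →₀ ℕ) (t : τ) :
    ex E a t = ∑ m, a m * E m t := by
  unfold ex
  rw [Finsupp.finsetSum_apply]
  rfl

/-- **Bounded exponents.** For all exponents `e` there are exponents `e'`, bounded in terms of `d`,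
with: every form of degree at most `d` that is zero at the polynomials with exponents `e` is zero at
those with exponents `e'`, and every form that is zero at the latter is zero at the former. -/
theorem exists_bounded (d : ℕ) (hd : 1 ≤ d) (e : ι → J → τ →₀ ℕ) :
    ∃ e' : ι → J → (ι × J) →₀ ℕ,
      (∀ i j v, e' i j v ≤ 2 * (2 * d) ^ (Fintype.card ι * Fintype.card J)) ∧
      ∀ (K : Type u) (L : Type v) [CommRing K] [CommRing L] [Algebra K L] (c : ι → J → L) (D : ℕ)
        (F : MvPolynomial J K), F.IsHomogeneous D →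
        (D ≤ d → aeval (sparse c e) F = 0 → aeval (sparse c e') F = 0) ∧
        (aeval (sparse c e') F = 0 → aeval (sparse c e) F = 0) := by
  classical
  set R : Set (ι × J → ℤ) := {w | ∑ m, |w m| ≤ 2 * (d : ℤ) ∧
    ∀ t, ∑ m, w m * (e m.1 m.2 t : ℤ) = 0} with hR
  obtain ⟨Δ, u, hΔ, hu, horth, hspan⟩ := exists_orthogonal R (2 * d) (by
    have : (1 : ℤ) ≤ d := by exact_mod_cast hd
    linarith) fun w hw => hw.1
  set B : ℕ := (2 * d) ^ (Fintype.card ι * Fintype.card J) with hB
  have hcard : ((2 * d : ℤ)) ^ Fintype.card (ι × J) = (B : ℤ) := by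
    rw [hB, Fintype.card_prod]
    push_cast
    rfl
  rw [hcard] at hu
  have hnn : ∀ v m, 0 ≤ u v m + B := fun v m => by
    have := neg_le_of_abs_le (hu v m)
    linarith
  set e' : ι → J → (ι × J) →₀ ℕ := fun i j =>
    Finsupp.equivFunOnFinite.symm fun v => (u v (i, j) + B).toNat with he'
  have he'app : ∀ i j v, (e' i j v : ℤ) = u v (i, j) + B := by
    intro i j v
    rw [he']
    simp only [Finsupp.equivFunOnFinite_symm_apply_apply]
    exact Int.toNat_of_nonneg (hnn _ _)
  refine ⟨e', ?_, ?_⟩
  · intro i j v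
    have h1 := he'app i j v
    have h2 := le_of_abs_le (hu v (i, j))
    omega
  · intro K L _ _ _ c D F hF
    set Q := aeval (uni c) F with hQ
    have hdeg : ∀ a ∈ Q.support, ∑ m, a m = D := fun a ha => degree_of_mem c hF ha
    have key : ∀ a b : ι × J →₀ ℕ, ∑ m, a m = D → ∑ m, b m = D → ∀ v,
        ((ex (fun m => e' m.1 m.2) a v : ℕ) : ℤ) - (ex (fun m => e' m.1 m.2) b v : ℕ) =
          ∑ m, ((a m : ℤ) - b m) * u v m := by
      intro a b ha hb v
      rw [ex_apply, ex_apply]
      push_cast
      simp only [he'app]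
      rw [← Finset.sum_sub_distrib]
      have ha' : ∑ m, ((a m : ℕ) : ℤ) = D := by exact_mod_cast ha
      have hb' : ∑ m, ((b m : ℕ) : ℤ) = D := by exact_mod_cast hb
      have h1 : ∑ m, (((a m : ℕ) : ℤ) * (u v (m.1, m.2) + B) - (b m : ℕ) * (u v (m.1, m.2) + B)) =
          ∑ m, ((a m : ℤ) - b m) * u v m + B * (∑ m, ((a m : ℕ) : ℤ) - ∑ m, ((b m : ℕ) : ℤ)) := by
        rw [mul_sub, Finset.mul_sum, Finset.mul_sum, ← Finset.sum_sub_distrib,
          ← Finset.sum_add_distrib]
        refine Finset.sum_congr rfl fun m _ => ?_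
        ring
      rw [h1, ha', hb']
      ring
    have key0 : ∀ a b : ι × J →₀ ℕ, ∀ t,
        ((ex (fun m => e m.1 m.2) a t : ℕ) : ℤ) - (ex (fun m => e m.1 m.2) b t : ℕ) =
          ∑ m, ((a m : ℤ) - b m) * (e m.1 m.2 t : ℤ) := by
      intro a b t
      rw [ex_apply, ex_apply]
      push_cast
      rw [← Finset.sum_sub_distrib]
      refine Finset.sum_congr rfl fun m _ => ?_
      ring
    constructor
    · intro hD h0
      rw [aeval_sparse] at h0 ⊢
      refine transfer _ _ _ ?_ h0
      intro a ha b hb hab
      have hmem : (fun m => (a m : ℤ) - b m) ∈ R := by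
        refine ⟨?_, ?_⟩
        · calc ∑ m, |(a m : ℤ) - b m| ≤ ∑ m, ((a m : ℤ) + b m) := by
                apply Finset.sum_le_sum
                intro m _
                rw [abs_le]
                constructor <;> omega
            _ = (∑ m, ((a m : ℕ) : ℤ)) + ∑ m, ((b m : ℕ) : ℤ) := Finset.sum_add_distrib
            _ ≤ 2 * (d : ℤ) := by
                have ha' : ∑ m, ((a m : ℕ) : ℤ) = D := by exact_mod_cast hdeg a ha
                have hb' : ∑ m, ((b m : ℕ) : ℤ) = D := by exact_mod_cast hdeg b hb
                rw [ha', hb']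
                have : (D : ℤ) ≤ d := by exact_mod_cast hD
                linarith
        · intro t
          rw [← key0 a b t, hab, sub_self]
      ext v
      have h1 := key a b (hdeg a ha) (hdeg b hb) v
      rw [horth _ hmem v] at h1
      exact_mod_cast sub_eq_zero.mp h1
    · intro h0
      rw [aeval_sparse] at h0 ⊢
      refine transfer _ _ _ ?_ h0
      intro a ha b hb hab
      ext t
      have h1 : ∀ v, ∑ m, ((a m : ℤ) - b m) * u v m = 0 := by
        intro v
        rw [← key a b (hdeg a ha) (hdeg b hb) v, hab, sub_self]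
      have h2 := hspan (fun m => (e m.1 m.2 t : ℤ)) fun w hw => hw.2 t
      have h3 : Δ * ∑ m, ((a m : ℤ) - b m) * (e m.1 m.2 t : ℤ) = 0 := by
        rw [Finset.mul_sum]
        calc ∑ m, Δ * (((a m : ℤ) - b m) * (e m.1 m.2 t : ℤ)) =
            ∑ m, ((a m : ℤ) - b m) * ∑ v, (e v.1 v.2 t : ℤ) * u v m := by
              refine Finset.sum_congr rfl fun m _ => ?_
              rw [← h2 m]
              ring
          _ = ∑ v, (e v.1 v.2 t : ℤ) * ∑ m, ((a m : ℤ) - b m) * u v m := by
              simp only [Finset.mul_sum]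
              rw [Finset.sum_comm]
              refine Finset.sum_congr rfl fun v _ => Finset.sum_congr rfl fun m _ => ?_
              ring
          _ = 0 := by
              apply Finset.sum_eq_zero
              intro v _
              rw [h1 v, mul_zero]
      have h4 := (mul_eq_zero.mp h3).resolve_left hΔ
      have h5 := key0 a b t
      rw [h4] at h5
      exact_mod_cast sub_eq_zero.mp h5

end bound

section prime

variable {J τ' K L : Type*} [CommRing K] [CommRing L] [Algebra K L]

/-- the substitution `x_j ↦ X P_j`, with a new variable `X` -/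
noncomputable def van (P : J → MvPolynomial τ' L) :
    MvPolynomial J K →ₐ[K] Polynomial (MvPolynomial τ' L) :=
  aeval fun j => Polynomial.X * Polynomial.C (P j)

lemma van_monomial (P : J → MvPolynomial τ' L) (a : J →₀ ℕ) (x : K) :
    van P (monomial a x) = Polynomial.X ^ (∑ j ∈ a.support, a j) *
      Polynomial.C (aeval P (monomial a x)) := by
  unfold van
  rw [aeval_monomial, aeval_monomial]
  simp only [mul_pow, Finsupp.prod, Finset.prod_mul_distrib, map_mul, map_prod, map_pow]
  rw [Finset.prod_pow_eq_pow_sum, Polynomial.algebraMap_apply]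
  ring

lemma van_form (P : J → MvPolynomial τ' L) {D : ℕ} {F : MvPolynomial J K}
    (hF : F.IsHomogeneous D) :
    van P F = Polynomial.X ^ D * Polynomial.C (aeval P F) := by
  have h1 : van P F = ∑ a ∈ F.support, van P (monomial a (coeff a F)) := by
    conv_lhs => rw [F.as_sum]
    rw [map_sum]
  have h2 : aeval P F = ∑ a ∈ F.support, aeval P (monomial a (coeff a F)) := by
    conv_lhs => rw [F.as_sum]
    rw [map_sum]
  rw [h1, h2, map_sum, Finset.mul_sum]
  refine Finset.sum_congr rfl fun a ha => ?_
  rw [van_monomial]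
  congr 2
  have h3 := hF (mem_support_iff.mp ha)
  rw [Finsupp.weight_apply, Finsupp.sum] at h3
  simpa using h3

/-- a polynomial is in the kernel of `van` if and only if its homogeneous components are zero
at `P` -/
lemma aeval_component_of_van (P : J → MvPolynomial τ' L) {F : MvPolynomial J K}
    (hF : van P F = 0) (D : ℕ) : aeval P (homogeneousComponent D F) = 0 := by
  have h1 : van P F = ∑ i ∈ range (F.totalDegree + 1),
      Polynomial.X ^ i * Polynomial.C (aeval P (homogeneousComponent i F)) := by
    conv_lhs => rw [← sum_homogeneousComponent F]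
    rw [map_sum]
    exact Finset.sum_congr rfl fun i _ => van_form P (homogeneousComponent_isHomogeneous i F)
  by_cases hD : D ∈ range (F.totalDegree + 1)
  · have h2 := congrArg (fun q => Polynomial.coeff q D) h1
    rw [hF, Polynomial.coeff_zero, Polynomial.finsetSum_coeff,
      Finset.sum_eq_single D] at h2
    · rw [Polynomial.coeff_X_pow_mul', if_pos le_rfl, Nat.sub_self, Polynomial.coeff_C_zero] at h2
      exact h2.symm
    · intro i _ hi
      rw [Polynomial.coeff_X_pow_mul']
      split_ifs with h3
      · exact Polynomial.coeff_C_of_ne_zero (by omega)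
      · rfl
    · intro h
      exact absurd hD h
  · rw [Finset.mem_range, not_lt] at hD
    rw [homogeneousComponent_eq_zero _ _ (by omega), map_zero]

end prime

/-- **Varieties parametrised by polynomials with few terms.** -/
theorem dense_of_transfer {ι J τ τ' K L : Type*} [Fintype ι] [CommRing K] [CommRing L]
    [IsDomain L] [Algebra K L] {d : ℕ} {c : ι → J → L} {e : ι → J → τ →₀ ℕ}
    {e' : ι → J → τ' →₀ ℕ}
    (hmain : ∀ (D : ℕ) (F : MvPolynomial J K), F.IsHomogeneous D →
      (D ≤ d → aeval (sparse c e) F = 0 → aeval (sparse c e') F = 0) ∧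
      (aeval (sparse c e') F = 0 → aeval (sparse c e) F = 0))
    (GG : Set (MvPolynomial J K)) (hG : ∀ G ∈ GG, ∃ k, k ≤ d ∧ G.IsHomogeneous k)
    (I : Ideal (MvPolynomial J K)) (hI : I ∈ (Ideal.span GG).minimalPrimes)
    (h : DenseIn I (sparse c e)) : DenseIn I (sparse c e') := by
  classical
  have hback : ∀ (D : ℕ) (F : MvPolynomial J K), F.IsHomogeneous D →
      aeval (sparse c e') F = 0 → F ∈ I := fun D F hF h0 => (h D F hF).mpr ((hmain D F hF).2 h0)
  set Jd : Ideal (MvPolynomial J K) := RingHom.ker (van (sparse c e')).toRingHom with hJd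
  have hmemJ : ∀ F, F ∈ Jd ↔ van (sparse c e') F = 0 := fun F => Iff.rfl
  have hprime : Jd.IsPrime := RingHom.ker_isPrime _
  have hle : Jd ≤ I := by
    intro F hF
    rw [hmemJ] at hF
    rw [← sum_homogeneousComponent F]
    apply Ideal.sum_mem
    intro i _
    exact hback i _ (homogeneousComponent_isHomogeneous i F) (aeval_component_of_van _ hF i)
  have hspan : Ideal.span GG ≤ Jd := by
    rw [Ideal.span_le]
    intro G hGG
    obtain ⟨k, hk, hhom⟩ := hG G hGG
    have h1 : G ∈ I := hI.1.2 (Ideal.subset_span hGG)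
    have h2 := (hmain k G hhom).1 hk ((h k _ hhom).mp h1)
    change van (sparse c e') G = 0
    rw [van_form _ hhom, h2, Polynomial.C_0, mul_zero]
  have hge : I ≤ Jd := hI.2 ⟨hprime, hspan⟩ hle
  intro D F hF
  refine ⟨fun hFI => ?_, hback D F hF⟩
  have h1 := hge hFI
  rw [hmemJ, van_form _ hF] at h1
  have h2 := congrArg (fun q => Polynomial.coeff q D) h1
  rw [Polynomial.coeff_X_pow_mul', if_pos le_rfl, Nat.sub_self, Polynomial.coeff_C_zero,
    Polynomial.coeff_zero] at h2
  exact h2

end Q33.SU
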